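import Pool.Graph.R_pool_sql_team_seeded_3997aac3.Q92.DT.Bdd

/-!
# MP_f04e08_an: a multiplier of the Dirichlet space which is uniformly Kreiss bounded, but not even
absolutely Cesaro bounded, with polynomially growing powers

The multiplier is the one of the library answer (`φ = (1 - ψ) / (1 + ψ)`, `ψ` a conformal map of the disc onto a
tree of thin tubes in the half plane). Here the lower estimate of the powers is proved for ALL exponents:
`‖φ^n‖^2 ≥ n^(1/4) / 2^34` for every `n ≥ 1`. So `‖M_φ^n‖` and already `‖M_φ^n 1‖` grow at least like `n^(1/8)`, and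
the arithmetic means of `‖M_φ^k 1‖` are unbounded: `M_φ` is not absolutely Cesaro bounded. As power bounded operators are
absolutely Cesaro bounded, this is stronger than the failure of power boundedness.
-/

set_option autoImplicit false

open MeasureTheory Set Filter Topology Metric
open scoped ENNReal

namespace Pool.Agent.Results.MP_f04e08_an.KreissNotCesaro

open Pool.Agent.Q92.DT

/-- The square of the norm of the Dirichlet space: `|f(0)|^2 + (1/π) ∫_𝔻 |f'|^2 dA`. -/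
noncomputable def dirNormSq (f : ℂ → ℂ) : ℝ≥0∞ :=
  ‖f 0‖ₑ ^ 2 + ENNReal.ofReal (1 / Real.pi) * ∫⁻ z in ball (0 : ℂ) 1, ‖deriv f z‖ₑ ^ 2

/-- `f` belongs to the Dirichlet space: it is analytic on the unit disc and has finite norm. -/
def InDirichlet (f : ℂ → ℂ) : Prop := DifferentiableOn ℂ f (ball 0 1) ∧ dirNormSq f < ⊤

/-- The multiplication operator `f ↦ u f` maps the Dirichlet space to itself, with norm at most `C`. -/
def MulNormLe (C : ℝ) (u : ℂ → ℂ) : Prop :=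
  ∀ f, InDirichlet f → InDirichlet (fun z => u z * f z) ∧
    dirNormSq (fun z => u z * f z) ≤ ENNReal.ofReal (C ^ 2) * dirNormSq f

/-- `φ` is a multiplier of the Dirichlet space. -/
def IsMultiplier (φ : ℂ → ℂ) : Prop := ∃ C : ℝ, MulNormLe C φ

/-- `M_φ` is power bounded. -/
def PowerBounded (φ : ℂ → ℂ) : Prop := ∃ C : ℝ, ∀ n : ℕ, MulNormLe C (fun z => φ z ^ n)

/-- `M_φ` is uniformly Kreiss bounded: the norms of the operators `(1 / (n + 1)) ∑_{k ≤ n} (λ M_φ)^k`, `|λ| = 1`, are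
bounded. -/
def UniformlyKreissBounded (φ : ℂ → ℂ) : Prop := ∃ C : ℝ, ∀ (n : ℕ) (l : ℂ), ‖l‖ = 1 →
  MulNormLe C (fun z => (1 / ((n : ℂ) + 1)) * ∑ k ∈ Finset.range (n + 1), (l * φ z) ^ k)

/-- The norm of the Dirichlet space, as an extended nonnegative real. -/
noncomputable def dirNorm (f : ℂ → ℂ) : ℝ≥0∞ := dirNormSq f ^ (1 / 2 : ℝ)

/-- `M_φ` is absolutely Cesaro bounded: `(1 / (n + 1)) ∑_{k ≤ n} ‖M_φ^k f‖ ≤ C ‖f‖` for all `f` and `n`. -/
def AbsolutelyCesaroBounded (φ : ℂ → ℂ) : Prop := ∃ C : ℝ, ∀ f, InDirichlet f → ∀ n : ℕ,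
  ∑ k ∈ Finset.range (n + 1), dirNorm (fun z => φ z ^ k * f z) ≤ ENNReal.ofReal (C * (n + 1)) * dirNorm f

theorem dirNormSq_eq : dirNormSq = normSq := rfl

/-- lower bound for the powers on a tube -/
theorem power_low {J n k : ℕ} {h : ℂ} (hJ : 1 ≤ J) (hn1 : 1 ≤ n) (hnr : (n : ℝ) * r J ≤ 1 / 16)
    (hk : k < 16 ^ J) (hh : h ∈ V J k) :
    (n : ℝ) ^ 2 / 128 ≤ ‖deriv (fun h => mp h ^ n) h‖ ^ 2 := by
  have hD : h ∈ Dom := P_sub hk (V_sub _ _ hh)
  obtain ⟨h1, h2, h3, h4⟩ := Dom_coord hD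
  have hre : h.re ≤ 9 / 8 * r J := by
    have e1 := (mem_V.1 hh).1.2
    have e2 := w_le J
    linarith
  have hd : deriv (fun h => mp h ^ n) h = n * mp h ^ (n - 1) * (-2 / (1 + h) ^ 2) :=
    ((hasDerivAt_mp hD).fun_pow n).deriv
  rw [hd, norm_mul, norm_mul, norm_pow, Complex.norm_natCast]
  -- the size of `1 + h`
  have e1 : ‖(1 : ℂ) + h‖ ^ 2 = (1 + h.re) ^ 2 + h.im ^ 2 := by
    rw [Complex.sq_norm, Complex.normSq_apply]
    simp
    ring
  have e2 : ‖(1 : ℂ) - h‖ ^ 2 = (1 - h.re) ^ 2 + h.im ^ 2 := by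
    rw [Complex.sq_norm, Complex.normSq_apply]
    simp
    ring
  have hr1 : r J ≤ 1 / 16 := by
    have := r_anti hJ
    have h1' : r 1 = 1 / 16 := by simp [r]
    rwa [h1'] at this
  have hs : h.re ≤ 1 / 8 := by linarith
  have e3 : ‖(1 : ℂ) + h‖ ^ 2 ≤ 4 := by
    rw [e1]
    nlinarith
  have e4 : 1 ≤ ‖(1 : ℂ) + h‖ ^ 2 := by
    rw [e1]
    nlinarith [sq_nonneg h.im, sq_nonneg h.re]
  have hm : 1 - 5 * r J ≤ ‖mp h‖ ^ 2 := by
    unfold mp
    rw [norm_div, div_pow, le_div_iff₀ (by positivity), e2]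
    have e5 : (1 - h.re) ^ 2 + h.im ^ 2 = ‖(1 : ℂ) + h‖ ^ 2 - 4 * h.re := by rw [e1]; ring
    rw [e5]
    have e6 : 4 * h.re ≤ 5 * r J * 1 := by linarith
    have e7 : 5 * r J * 1 ≤ 5 * r J * ‖(1 : ℂ) + h‖ ^ 2 :=
      mul_le_mul_of_nonneg_left e4 (by have := r_pos J; positivity)
    linarith
  have hpow : 1 / 2 ≤ (‖mp h‖ ^ (n - 1)) ^ 2 := by
    rw [← pow_mul, mul_comm (n - 1) 2, pow_mul]
    have hr0 := r_pos J
    have f1 : (1 - 5 * r J) ^ (n - 1) ≤ (‖mp h‖ ^ 2) ^ (n - 1) := pow_le_pow_left₀ (by linarith) hm _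
    have f2 := one_add_mul_le_pow (a := -(5 * r J)) (by linarith) (n - 1)
    have f3 : ((n - 1 : ℕ) : ℝ) ≤ n := by exact_mod_cast Nat.sub_le n 1
    have f4 : ((n - 1 : ℕ) : ℝ) * (5 * r J) ≤ 5 / 16 := by
      calc ((n - 1 : ℕ) : ℝ) * (5 * r J) ≤ n * (5 * r J) := by gcongr
        _ = 5 * (n * r J) := by ring
        _ ≤ 5 / 16 := by linarith
    have f5 : 1 + -(5 * r J) = 1 - 5 * r J := by ring
    rw [f5] at f2
    linarith
  have hm' : 1 / 4 ≤ ‖-2 / (1 + h) ^ 2‖ ^ 2 := by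
    rw [norm_div, norm_pow, norm_neg, div_pow]
    have : ‖(2 : ℂ)‖ = 2 := by simp
    rw [this, le_div_iff₀ (by positivity)]
    nlinarith
  have hn0 : (0 : ℝ) ≤ (n : ℝ) ^ 2 := by positivity
  calc (n : ℝ) ^ 2 / 128 ≤ (n : ℝ) ^ 2 * (1 / 2) * (1 / 4) := by nlinarith
    _ ≤ (n : ℝ) ^ 2 * (‖mp h‖ ^ (n - 1)) ^ 2 * ‖-2 / (1 + h) ^ 2‖ ^ 2 := by gcongr
    _ = _ := by ring

/-- the powers have large norm -/
theorem norm_power_aux {ψ ξ : ℂ → ℂ} (h : IsMap ψ ξ) {J n : ℕ} (hJ : 1 ≤ J) (hn1 : 1 ≤ n)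
    (hnr : (n : ℝ) * r J ≤ 1 / 16) :
    ENNReal.ofReal ((n : ℝ) ^ 2 * w J / 256) ≤ ∫⁻ z in ball (0 : ℂ) 1, ‖deriv (fun z => mp (ψ z) ^ n) z‖ₑ ^ 2 := by
  have hcov := h.cov (fun w => ‖deriv (fun h => mp h ^ n) w‖ₑ ^ 2)
  have e1 : ∫⁻ z in ball (0 : ℂ) 1, ‖deriv (fun z => mp (ψ z) ^ n) z‖ₑ ^ 2 =
      ∫⁻ z in ball (0 : ℂ) 1, ‖deriv ψ z‖ₑ ^ 2 * ‖deriv (fun h => mp h ^ n) (ψ z)‖ₑ ^ 2 := by
    refine setLIntegral_congr_fun measurableSet_ball fun z hz => ?_
    have h1 : HasDerivAt (fun h => mp h ^ n) (deriv (fun h => mp h ^ n) (ψ z)) (ψ z) :=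
      ((hasDerivAt_mp (h.mψ z hz)).fun_pow _).differentiableAt.hasDerivAt
    have h2 : HasDerivAt ψ (deriv ψ z) z := (h.dψ.differentiableAt (isOpen_ball.mem_nhds hz)).hasDerivAt
    have h3 := h1.comp z h2
    have h4 : deriv (fun z => mp (ψ z) ^ n) z = deriv (fun h => mp h ^ n) (ψ z) * deriv ψ z := h3.deriv
    rw [h4, enorm_mul, mul_pow, mul_comm]
  rw [e1, ← hcov]
  -- the disjoint tubes
  have hsub : (⋃ k ∈ Finset.range (16 ^ J), V J k) ⊆ Dom := by
    intro z hz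
    simp only [mem_iUnion, Finset.mem_range] at hz
    obtain ⟨k, hk, hz⟩ := hz
    exact P_sub hk (V_sub _ _ hz)
  refine le_trans ?_ (lintegral_mono_set hsub)
  rw [lintegral_biUnion_finset (fun k _ k' _ hkk => ?_) (fun k _ => (isOpen_V _ _).measurableSet)]
  · have hw := w_pos J
    have hr := r_pos J
    have hone : ∀ k ∈ Finset.range (16 ^ J), ENNReal.ofReal ((n : ℝ) ^ 2 / 128 * (r J / 2 * w J)) ≤
        ∫⁻ z in V J k, ‖deriv (fun h => mp h ^ n) z‖ₑ ^ 2 := by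
      intro k hk
      rw [Finset.mem_range] at hk
      calc ENNReal.ofReal ((n : ℝ) ^ 2 / 128 * (r J / 2 * w J))
          ≤ ENNReal.ofReal ((n : ℝ) ^ 2 / 128) * volume (V J k) := by
            rw [ENNReal.ofReal_mul (by positivity)]
            gcongr
            unfold V
            have e3 := r_succ J
            rw [vol_rect (by have := r_pos (J + 1); nlinarith)]
            apply ENNReal.ofReal_le_ofReal
            have e2 : c J k + w J - c J k = w J := by ring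
            rw [e2]
            apply mul_le_mul_of_nonneg_right _ hw.le
            linarith
        _ = ∫⁻ z in V J k, ENNReal.ofReal ((n : ℝ) ^ 2 / 128) := by rw [setLIntegral_const]
        _ ≤ _ := by
            refine setLIntegral_mono' (isOpen_V _ _).measurableSet fun z hz => ?_
            rw [enorm_sq_eq]
            exact ENNReal.ofReal_le_ofReal (power_low hJ hn1 hnr hk hz)
    refine le_trans ?_ (Finset.sum_le_sum hone)
    rw [Finset.sum_const, Finset.card_range, nsmul_eq_mul]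
    have hc : ((16 ^ J : ℕ) : ℝ≥0∞) = ENNReal.ofReal (16 ^ J) := by
      rw [← ENNReal.ofReal_natCast]
      push_cast
      rfl
    rw [hc, ← ENNReal.ofReal_mul (by positivity)]
    apply ENNReal.ofReal_le_ofReal
    have e4 : (16 : ℝ) ^ J * r J = 1 := by
      unfold r
      rw [← mul_pow]
      norm_num
    have e6 : (16 : ℝ) ^ J * ((n : ℝ) ^ 2 / 128 * (r J / 2 * w J)) =
        ((16 : ℝ) ^ J * r J) * ((n : ℝ) ^ 2 * w J) / 256 := by ring
    rw [e6, e4, one_mul]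
  · rw [Function.onFun, Set.disjoint_left]
    intro z hz hz'
    exact hkk (P_same (V_sub _ _ hz) (V_sub _ _ hz'))

/-- the powers have large norm, all exponents -/
theorem norm_power {ψ ξ : ℂ → ℂ} (h : IsMap ψ ξ) {n : ℕ} (hn1 : 1 ≤ n) :
    ENNReal.ofReal ((n : ℝ) ^ (1 / 4 : ℝ) / 2 ^ 32) ≤
      ∫⁻ z in ball (0 : ℂ) 1, ‖deriv (fun z => mp (ψ z) ^ n) z‖ₑ ^ 2 := by
  obtain ⟨j, hj1, hj2⟩ : ∃ j, 16 ^ j ≤ n ∧ n < 16 ^ (j + 1) :=
    ⟨Nat.log 16 n, Nat.pow_log_le_self 16 (by omega), Nat.lt_pow_succ_log_self (by norm_num) n⟩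
  have hj1' : (16 : ℝ) ^ j ≤ n := by exact_mod_cast hj1
  have hj2' : (n : ℝ) ≤ 16 ^ (j + 1) := by exact_mod_cast hj2.le
  have hn0 : (0 : ℝ) < n := by exact_mod_cast hn1
  have hnr : (n : ℝ) * r (j + 2) ≤ 1 / 16 := by
    have h1 : (16 : ℝ) ^ (j + 1) * r (j + 2) = 1 / 16 := by
      unfold r
      rw [pow_succ (1 / 16 : ℝ) (j + 1), ← mul_assoc, ← mul_pow]
      norm_num
    rw [← h1]
    exact mul_le_mul_of_nonneg_right hj2' (r_pos _).le
  refine le_trans (ENNReal.ofReal_le_ofReal ?_) (norm_power_aux h (J := j + 2) (by omega) hn1 hnr)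
  have h1 : (128 : ℝ) ^ j ≤ (n : ℝ) ^ (7 / 4 : ℝ) := by
    have h2 : ((16 : ℝ) ^ j) ^ (7 / 4 : ℝ) = 128 ^ j := by
      rw [← Real.rpow_natCast, ← Real.rpow_mul (by norm_num), mul_comm, Real.rpow_mul (by norm_num),
        Real.rpow_natCast]
      congr 1
      have h3 : (16 : ℝ) = 2 ^ (4 : ℝ) := by
        rw [show (4 : ℝ) = ((4 : ℕ) : ℝ) by norm_num, Real.rpow_natCast]
        norm_num
      rw [h3, ← Real.rpow_mul (by norm_num)]
      norm_num
    rw [← h2]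
    exact Real.rpow_le_rpow (by positivity) hj1' (by norm_num)
  have h3 : (n : ℝ) ^ 2 = (n : ℝ) ^ (1 / 4 : ℝ) * (n : ℝ) ^ (7 / 4 : ℝ) := by
    rw [← Real.rpow_add hn0]
    norm_num
  have h4 : (n : ℝ) ^ 2 * w (j + 2) / 256 = (n : ℝ) ^ (1 / 4 : ℝ) / 2 ^ 32 * ((n : ℝ) ^ (7 / 4 : ℝ) / 128 ^ j) := by
    rw [h3]
    unfold w
    rw [one_div_pow]
    field_simp
    ring
  rw [h4]
  have h5 : 1 ≤ (n : ℝ) ^ (7 / 4 : ℝ) / 128 ^ j := by
    rw [le_div_iff₀ (by positivity), one_mul]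
    exact h1
  have h6 : 0 ≤ (n : ℝ) ^ (1 / 4 : ℝ) / 2 ^ 32 := by positivity
  nlinarith

theorem norm_power' {ψ ξ : ℂ → ℂ} (h : IsMap ψ ξ) {n : ℕ} (hn1 : 1 ≤ n) :
    ENNReal.ofReal ((n : ℝ) ^ (1 / 4 : ℝ) / 2 ^ 34) ≤ dirNormSq (fun z => mp (ψ z) ^ n) := by
  have h1 := norm_power h hn1
  have h4 : ENNReal.ofReal (1 / 4) ≤ ENNReal.ofReal (1 / Real.pi) := by
    apply ENNReal.ofReal_le_ofReal
    apply one_div_le_one_div_of_le Real.pi_pos
    exact Real.pi_le_four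
  have h5 := mul_le_mul' h4 h1
  rw [← ENNReal.ofReal_mul (by norm_num)] at h5
  unfold dirNormSq
  refine le_trans (le_trans (le_of_eq ?_) h5) le_add_self
  congr 1
  ring

/-- a function with `‖φ^n‖^2 ≥ c n^(1/4)` is not absolutely Cesaro bounded -/
theorem not_acb {φ : ℂ → ℂ} (h : ∀ n : ℕ, 1 ≤ n →
    ENNReal.ofReal ((n : ℝ) ^ (1 / 4 : ℝ) / 2 ^ 34) ≤ dirNormSq (fun z => φ z ^ n)) :
    ¬ AbsolutelyCesaroBounded φ := by
  rintro ⟨C, hC⟩
  have hone : dirNormSq (fun _ => (1 : ℂ)) = 1 := by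
    unfold dirNormSq
    simp
  have hin : InDirichlet (fun _ => (1 : ℂ)) := ⟨differentiableOn_const _, by rw [hone]; exact ENNReal.one_lt_top⟩
  have hlow : ∀ n : ℕ, 1 ≤ n → ENNReal.ofReal ((n : ℝ) ^ (1 / 8 : ℝ) / 2 ^ 17) ≤ dirNorm (fun z => φ z ^ n * 1) := by
    intro n hn
    have h1 := ENNReal.rpow_le_rpow (h n hn) (by norm_num : (0 : ℝ) ≤ 1 / 2)
    have h2 : (fun z => φ z ^ n * 1) = fun z => φ z ^ n := by
      funext z
      rw [mul_one]
    rw [h2]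
    refine le_trans (le_of_eq ?_) h1
    rw [ENNReal.ofReal_rpow_of_nonneg (by positivity) (by norm_num)]
    congr 1
    rw [Real.div_rpow (by positivity) (by norm_num), ← Real.rpow_mul (by positivity)]
    congr 1
    · norm_num
    · rw [← Real.rpow_natCast 2 34, ← Real.rpow_mul (by norm_num)]
      norm_num
  have hkey : ∀ n : ℕ, 1 ≤ n → (n : ℝ) * ((n : ℝ) ^ (1 / 8 : ℝ) / 2 ^ 17) ≤ |C| * (2 * n + 1) := by
    intro n hn
    have h1 := hC _ hin (2 * n)
    have h2 : dirNorm (fun _ => (1 : ℂ)) = 1 := by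
      unfold dirNorm
      rw [hone, ENNReal.one_rpow]
    rw [h2, mul_one] at h1
    have h3 : ∑ k ∈ Finset.Ico n (2 * n), ENNReal.ofReal ((n : ℝ) ^ (1 / 8 : ℝ) / 2 ^ 17) ≤
        ∑ k ∈ Finset.range (2 * n + 1), dirNorm (fun z => φ z ^ k * 1) := by
      calc ∑ k ∈ Finset.Ico n (2 * n), ENNReal.ofReal ((n : ℝ) ^ (1 / 8 : ℝ) / 2 ^ 17)
          ≤ ∑ k ∈ Finset.Ico n (2 * n), dirNorm (fun z => φ z ^ k * 1) := by
            refine Finset.sum_le_sum fun k hk => ?_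
            rw [Finset.mem_Ico] at hk
            refine le_trans (ENNReal.ofReal_le_ofReal ?_) (hlow k (by omega))
            gcongr
            exact hk.1
        _ ≤ _ := by
            refine Finset.sum_le_sum_of_subset fun k hk => ?_
            rw [Finset.mem_Ico] at hk
            rw [Finset.mem_range]
            omega
    rw [Finset.sum_const, Nat.card_Ico, nsmul_eq_mul] at h3
    have h4 : ((2 * n - n : ℕ) : ℝ≥0∞) = ENNReal.ofReal (n : ℝ) := by
      rw [ENNReal.ofReal_natCast]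
      congr 1
      omega
    rw [h4, ← ENNReal.ofReal_mul (by positivity)] at h3
    have h5 := h3.trans h1
    have h6 : ENNReal.ofReal (C * ((2 * n : ℕ) + 1)) ≤ ENNReal.ofReal (|C| * (2 * n + 1)) := by
      apply ENNReal.ofReal_le_ofReal
      push_cast
      have := le_abs_self C
      gcongr
    exact (ENNReal.ofReal_le_ofReal_iff (by positivity)).1 (h5.trans h6)
  -- choose `n` large
  have htop : Tendsto (fun n : ℕ => (n : ℝ) ^ (1 / 8 : ℝ)) atTop atTop :=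
    (tendsto_rpow_atTop (by norm_num)).comp tendsto_natCast_atTop_atTop
  obtain ⟨n, hn1, hn⟩ := ((htop.eventually_gt_atTop (|C| * 3 * 2 ^ 17)).and (eventually_ge_atTop 1)).exists
  have h1 := hkey n hn
  have hn' : (1 : ℝ) ≤ n := by exact_mod_cast hn
  have h2 : |C| * (2 * n + 1) ≤ n * (|C| * 3) := by
    have := abs_nonneg C
    nlinarith
  have h3 : (n : ℝ) * ((n : ℝ) ^ (1 / 8 : ℝ) / 2 ^ 17) ≤ n * (|C| * 3) := h1.trans h2
  have h4 := le_of_mul_le_mul_left h3 (by linarith)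
  rw [div_le_iff₀ (by positivity)] at h4
  linarith

/-- power bounded operators are absolutely Cesaro bounded -/
theorem not_pb {φ : ℂ → ℂ} (h : ¬ AbsolutelyCesaroBounded φ) : ¬ PowerBounded φ := by
  rintro ⟨C, hC⟩
  apply h
  refine ⟨|C|, fun f hf n => ?_⟩
  have h1 : ∀ k ∈ Finset.range (n + 1), dirNorm (fun z => φ z ^ k * f z) ≤ ENNReal.ofReal |C| * dirNorm f := by
    intro k _
    have h2 := (hC k f hf).2
    have h3 := ENNReal.rpow_le_rpow h2 (by norm_num : (0 : ℝ) ≤ 1 / 2)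
    rw [ENNReal.mul_rpow_of_nonneg _ _ (by norm_num)] at h3
    refine h3.trans (le_of_eq ?_)
    unfold dirNorm
    congr 1
    rw [ENNReal.ofReal_rpow_of_nonneg (by positivity) (by norm_num), ← Real.sqrt_eq_rpow, Real.sqrt_sq_eq_abs]
  refine (Finset.sum_le_sum h1).trans (le_of_eq ?_)
  rw [Finset.sum_const, Finset.card_range, nsmul_eq_mul, ← mul_assoc]
  congr 1
  rw [mul_comm |C|, ENNReal.ofReal_mul (by positivity)]
  congr 1
  rw [← ENNReal.ofReal_natCast]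
  push_cast
  rfl

/-- There is a multiplier `φ` of the Dirichlet space such that `M_φ` is uniformly Kreiss bounded, but not absolutely
Cesaro bounded (in particular not power bounded); moreover `‖M_φ^n 1‖^2 = ‖φ^n‖^2 ≥ n^(1/4) / 2^34` for all `n ≥ 1`. -/
theorem result : ∃ φ : ℂ → ℂ, DifferentiableOn ℂ φ (ball 0 1) ∧ IsMultiplier φ ∧ UniformlyKreissBounded φ ∧
    ¬ AbsolutelyCesaroBounded φ ∧ ¬ PowerBounded φ ∧
    ∀ n : ℕ, 1 ≤ n → ENNReal.ofReal ((n : ℝ) ^ (1 / 4 : ℝ) / 2 ^ 34) ≤ dirNormSq (fun z => φ z ^ n) := by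
  obtain ⟨ψ, ξ, h⟩ := exists_map
  obtain ⟨K, hK⟩ : ∃ K, TreeConst K := tree_est
  obtain ⟨C, hC0, hC⟩ := wt
  have hK0 := hK.1
  have hmpd : DifferentiableOn ℂ mp Dom := fun z hz => (hasDerivAt_mp hz).differentiableAt.differentiableWithinAt
  have hφd : DifferentiableOn ℂ (fun z => mp (ψ z)) (ball 0 1) := hmpd.comp h.dψ h.mψ
  have hlow : ∀ n : ℕ, 1 ≤ n → ENNReal.ofReal ((n : ℝ) ^ (1 / 4 : ℝ) / 2 ^ 34) ≤ dirNormSq (fun z => mp (ψ z) ^ n) :=
    fun n hn => norm_power' h hn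
  refine ⟨fun z => mp (ψ z), hφd, ?_, ?_, not_acb hlow, not_pb (not_acb hlow), hlow⟩
  · -- the multiplier
    obtain ⟨b, hb0, hb, hbs⟩ := hC 1 1 (by simp)
    have hA : ∀ z ∈ Dom, HasDerivAt (A 1 1) ((1 / 2) * (-2 / (1 + z) ^ 2)) z := by
      intro z hz
      have h1 := ((hasDerivAt_mp hz).const_add 1).const_mul (1 / 2 : ℂ)
      refine h1.congr_of_eventuallyEq (Eventually.of_forall fun y => ?_)
      unfold A
      rw [Finset.sum_range_succ, Finset.sum_range_succ, Finset.sum_range_zero]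
      simp
      norm_num
    refine ⟨Real.sqrt (2 * (K * (4 * C)) + 2), fun f hf => ?_⟩
    have hbd := bdd h hK hmpd (fun z hz => mp_le hz) (b := fun j k => 4 * b j k)
      (fun j k => by have := hb0 j k; positivity) (fun j k hk z hz => ?_) (C := 4 * C) (fun J => ?_) hf.1 hf.2
    · have hpos : 0 ≤ 2 * (K * (4 * C)) + 2 := by positivity
      have hle : dirNormSq (fun z => mp (ψ z) * f z) ≤
          ENNReal.ofReal (Real.sqrt (2 * (K * (4 * C)) + 2) ^ 2) * dirNormSq f := by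
        rw [Real.sq_sqrt hpos]
        exact hbd
      exact ⟨⟨hφd.mul hf.1, lt_of_le_of_lt hle (ENNReal.mul_lt_top ENNReal.ofReal_lt_top hf.2)⟩, hle⟩
    · have h1 := hb j k hk z hz
      rw [(hA z (P_sub hk hz)).deriv, norm_mul, mul_pow] at h1
      rw [(hasDerivAt_mp (P_sub hk hz)).deriv]
      have h2 : ‖(1 / 2 : ℂ)‖ ^ 2 = 1 / 4 := by norm_num
      rw [h2] at h1
      linarith
    · have h1 := hbs J
      have h2 : ∑ j ∈ Finset.range J, ∑ k ∈ Finset.range (16 ^ j), 4 * b j k * r j ^ 2 =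
          4 * ∑ j ∈ Finset.range J, ∑ k ∈ Finset.range (16 ^ j), b j k * r j ^ 2 := by
        rw [Finset.mul_sum]
        refine Finset.sum_congr rfl fun j _ => ?_
        rw [Finset.mul_sum]
        exact Finset.sum_congr rfl fun k _ => by ring
      rw [h2]
      linarith
  · -- uniformly Kreiss bounded
    refine ⟨Real.sqrt (2 * (K * C) + 2), fun n l hl f hf => ?_⟩
    obtain ⟨b, hb0, hb, hbs⟩ := hC n l hl
    have hAd : DifferentiableOn ℂ (A n l) Dom := fun z hz => (hasDerivAt_A hz).differentiableAt.differentiableWithinAt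
    have hbd := bdd h hK hAd (fun z hz => norm_A_le hl hz) hb0 hb hbs hf.1 hf.2
    have hfun : (fun z => (1 / ((n : ℂ) + 1)) * (∑ k ∈ Finset.range (n + 1), (l * mp (ψ z)) ^ k) * f z) =
        fun z => A n l (ψ z) * f z := by
      funext z
      unfold A
      simp only [mul_pow]
    have hpos : 0 ≤ 2 * (K * C) + 2 := by positivity
    have hle : dirNormSq (fun z => A n l (ψ z) * f z) ≤ ENNReal.ofReal (Real.sqrt (2 * (K * C) + 2) ^ 2) * dirNormSq f := by
      rw [Real.sq_sqrt hpos]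
      exact hbd
    rw [hfun]
    exact ⟨⟨(hAd.comp h.dψ h.mψ).mul hf.1, lt_of_le_of_lt hle (ENNReal.mul_lt_top ENNReal.ofReal_lt_top hf.2)⟩, hle⟩

end Pool.Agent.Results.MP_f04e08_an.KreissNotCesaro
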